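import Pool.Agent.helper91.SI.Spec

set_option autoImplicit false

namespace Pool.Agent.helper91.SI

open Pool.Agent.helper20.IG (IsIndepDom IsISet iGraph)

theorem FIN_noC4 {V W : Type} (G : SimpleGraph V) (H : SimpleGraph W) (e : G ≃g H)
    (h : NoC4 H) : NoC4 G := by
  intro a b c d h1 h2 h3 h4 hac hbd
  exact h (e a) (e b) (e c) (e d) (e.map_rel_iff.2 h1) (e.map_rel_iff.2 h2) (e.map_rel_iff.2 h3)
    (e.map_rel_iff.2 h4) (fun q => hac (e.injective q)) (fun q => hbd (e.injective q))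

theorem FIN_three {V W : Type} (G : SimpleGraph V) (H : SimpleGraph W) (e : G ≃g H)
    (h : Three G) : Three H := by
  obtain ⟨x, a, b, c, h1, h2, h3, hab, hac, hbc⟩ := h
  exact ⟨e x, e a, e b, e c, e.map_rel_iff.2 h1, e.map_rel_iff.2 h2, e.map_rel_iff.2 h3,
    fun q => hab (e.injective q), fun q => hac (e.injective q), fun q => hbc (e.injective q)⟩

theorem FIN_one : SimpleGraph.pathGraph 1 = ⊤ := by
  ext i j
  have h : i = j := Subsingleton.elim i j
  subst h
  simp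

theorem FIN (hCYC : CYC_stmt) (hDEG : DEG_stmt) (hSTA : STA_stmt) (hSTB : STB_stmt)
    (hTRF : TRF_stmt) (hPTT : PTT_stmt) (hCTT : CTT_stmt) (hSML : SML_stmt) (hPA0 : PA0_stmt)
    (hPA2 : PA2_stmt) (hPA1 : PA1_stmt) (hPA4 : PA4_stmt) (hCA0 : CA0_stmt) (hCA1 : CA1_stmt) :
    FIN_stmt := by
  intro V _ _ G hc hcyc he
  obtain ⟨e⟩ := he
  obtain ⟨n3, n4, n6, n7⟩ := hCYC V G hcyc
  have hI4 : NoC4 (iGraph G) := FIN_noC4 _ _ e n4
  have hIT : ¬ Three (iGraph G) := hDEG V G n3 n6 n7 hI4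
  have hT : ¬ Three G := fun h => hIT (FIN_three _ _ e.symm h)
  obtain ⟨n, f, hf⟩ := hSTA V G hc hT
  rcases hSTB V G n f hf hT with ⟨⟨g⟩⟩ | ⟨hn, ⟨g⟩⟩
  · have hn0 : n ≠ 0 := by
      rintro rfl
      obtain ⟨v⟩ := hc.nonempty
      exact (f.symm v).elim0
    rcases Nat.lt_or_ge n 3 with h3 | h3
    · have h12 : n = 1 ∨ n = 2 := by omega
      rcases h12 with rfl | rfl
      · left
        rw [FIN_one] at g
        exact ⟨g.symm⟩
      · right
        left
        rw [SimpleGraph.pathGraph_two_eq_top] at g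
        exact ⟨g.symm⟩
    · exfalso
      obtain ⟨t⟩ := hTRF (Fin n) V (SimpleGraph.pathGraph n) G ⟨g⟩
      have hiso : iGraph (SimpleGraph.pathGraph n) ≃g SimpleGraph.pathGraph n :=
        (t.trans e).trans g.symm
      have hm : n % 3 = 0 ∨ n % 3 = 1 ∨ n % 3 = 2 := by omega
      rcases hm with hm | hm | hm
      · exact (hPA0 n h3 hm).false hiso
      · rcases Nat.lt_or_ge n 7 with h7 | h7
        · have h4 : n = 4 := by omega
          subst h4
          exact hPA4.false hiso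
        · exact hPA1 n h7 hm (FIN_noC4 _ _ hiso (hPTT n).2)
      · exact (hPA2 n (by omega) hm).false hiso
  · obtain ⟨m3, m4, m6, m7⟩ := hSML V G n n3 n4 n6 n7 ⟨g⟩
    obtain ⟨t⟩ := hTRF (Fin n) V (SimpleGraph.cycleGraph n) G ⟨g⟩
    have hiso : iGraph (SimpleGraph.cycleGraph n) ≃g SimpleGraph.cycleGraph n :=
      (t.trans e).trans g.symm
    have hm : n % 3 = 0 ∨ n % 3 = 1 ∨ n % 3 = 2 := by omega
    rcases hm with hm | hm | hm
    · exact ((hCA0 n (by omega) hm).false hiso).elim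
    · exact (hCTT n hn (FIN_three _ _ hiso (hCA1 n (by omega) hm))).elim
    · right
      right
      exact ⟨n, by omega, hm, ⟨g.symm⟩⟩

end Pool.Agent.helper91.SI
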