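import Pool.Agent.helper91.SI.Spec3

/-!
# The converse: K_1, K_2, the 7-cycle and the cycles of length 2 modulo 3
-/

set_option autoImplicit false

namespace Pool.Agent.helper91.SI

open Pool.Agent.helper20.IG

theorem CV3_K1 : Nonempty (iGraph (⊤ : SimpleGraph (Fin 1)) ≃g (⊤ : SimpleGraph (Fin 1))) :=
  iso_of_test (l := [0]) (L := [1]) 1
      (by decide +kernel) (by decide) (by decide +kernel) (by decide +kernel) (by decide +kernel)
      (by decide +kernel)

theorem CV3_K2 : Nonempty (iGraph (⊤ : SimpleGraph (Fin 2)) ≃g (⊤ : SimpleGraph (Fin 2))) :=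
  iso_of_test (l := [2, 1]) (L := [1, 2]) 1
      (by decide +kernel) (by decide) (by decide +kernel) (by decide +kernel) (by decide +kernel)
      (by decide +kernel)

theorem CV3_C7 :
    Nonempty (iGraph (SimpleGraph.cycleGraph 7) ≃g SimpleGraph.cycleGraph 7) :=
  iso_of_test (l := [66, 5, 10, 20, 40, 80, 33]) (L := [21, 37, 41, 42, 74, 82, 84]) 3
      (by decide +kernel) (by decide) (by decide +kernel) (by decide +kernel) (by decide +kernel)
      (by decide +kernel)

theorem CV3_tr {V W : Type} [DecidableEq V] [DecidableEq W] (hTRF : TRF_stmt)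
    (G : SimpleGraph V) (H : SimpleGraph W) (h : Nonempty (iGraph H ≃g H))
    (e : Nonempty (G ≃g H)) : Nonempty (iGraph G ≃g G) := by
  obtain ⟨f⟩ := h
  obtain ⟨t⟩ := hTRF V W G H e
  obtain ⟨g⟩ := e
  exact ⟨(t.trans f).trans g.symm⟩

/-- The converse of the final statement. -/
theorem CV3 (hTRF : TRF_stmt) (hCNV : CNV_stmt) (V : Type) [DecidableEq V] (G : SimpleGraph V)
    (h : Nonempty (G ≃g (⊤ : SimpleGraph (Fin 1))) ∨ Nonempty (G ≃g (⊤ : SimpleGraph (Fin 2))) ∨
      Nonempty (G ≃g SimpleGraph.cycleGraph 7) ∨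
      ∃ k, 5 ≤ k ∧ k % 3 = 2 ∧ Nonempty (G ≃g SimpleGraph.cycleGraph k)) :
    Nonempty (iGraph G ≃g G) := by
  rcases h with h | h | h | ⟨k, hk, hm, h⟩
  · exact CV3_tr hTRF _ _ CV3_K1 h
  · exact CV3_tr hTRF _ _ CV3_K2 h
  · exact CV3_tr hTRF _ _ CV3_C7 h
  · exact CV3_tr hTRF _ _ (hCNV k hk hm) h

end Pool.Agent.helper91.SI
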