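import Pool.Agent.helper91.SI.FI3
import Pool.Agent.helper91.SI.CV3
import Pool.Agent.helper12.SI.CNV
import Pool.Agent.helper14.SI.TRF
import Pool.Agent.helper16.SI.NMC
import Pool.Agent.helper22.SI.NM2
import Pool.Agent.helper23.SI.CTT
import Pool.Agent.helper24.SI.PAB
import Pool.Agent.helper58.SI.CA0
import Pool.Agent.helper83.SI.STA
import Pool.Agent.helper30.SI.CYM
import Pool.Agent.helper32.SI.PP3
import Pool.Agent.helper33.SI.PA2
import Pool.Agent.helper35.SI.CFL
import Pool.Agent.helper35.SI.CI3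
import Pool.Agent.helper4.SI.DBL
import Pool.Agent.helper42.SI.CA1
import Pool.Agent.helper42.SI.CYG
import Pool.Agent.helper5.SI.SAM
import Pool.Agent.helper53.SI.DE3
import Pool.Agent.helper54.SI.NM1
import Pool.Agent.helper54.SI.PRM
import Pool.Agent.helper54.SI.STB
import Pool.Agent.helper57.SI.PA0
import Pool.Agent.helper58.SI.CYA
import Pool.Agent.helper64.SI.PA1
import Pool.Agent.helper66.SI.NOM
import Pool.Agent.helper71.SI.PA4
import Pool.Agent.helper72.SI.SM2
import Pool.Agent.helper79.SI.PTT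
import Pool.Agent.helper80.SI.TH2
import Pool.Agent.helper82.SI.NB1
import Pool.Agent.helper91.SI.DS3
import Pool.Agent.helper90.SI.PX3
import Pool.Agent.helper90.SI.SLD
import Pool.Agent.helper94.SI.NM3
import Pool.Agent.helper95.SI.IAD
import Pool.Agent.helper99.SI.BAL
import Pool.Agent.helper99.SI.LBD

/-!
# All rows together
-/

set_option autoImplicit false

namespace Pool.Agent.helper91.SI

theorem All_SAM : SAM_stmt := SAM SLD

theorem All_CFL : CFL_stmt := CFL SLD IAD (DBL SLD)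

theorem All_NOM : NOM_stmt :=
  NOM (NM1 IAD (NB1 All_SAM)) (NMC (NB1 All_SAM) (NM1 IAD (NB1 All_SAM)))
    (NM2 (NMC (NB1 All_SAM) (NM1 IAD (NB1 All_SAM))))
    (NM3 IAD (NMC (NB1 All_SAM) (NM1 IAD (NB1 All_SAM))))

theorem All_CI3 : CI3_stmt := CI3 IAD BAL (CYM PRM) All_NOM DS3

theorem All_DE3 : DE3_stmt :=
  DE3 IAD All_SAM All_CFL (TH2 SLD) (PP3 IAD SLD All_SAM All_CFL All_CI3) (PX3 All_CI3)

theorem All_FI3 : FI3_stmt :=
  FI3 CYG All_DE3 STA (STB CYA) TRF PTT (CTT CYA) (SM2 CYA) (PA0 PAB) (PA2 PAB) (PA1 LBD PTT) PA4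
    (CA0 CYA) (CA1 LBD (CTT CYA) CYA)

end Pool.Agent.helper91.SI
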