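import Pool.Agent.helper91.SI.All
import Pool.Agent.helper91.SI.FI4
import Pool.Agent.helper3.SI.P6R
import Pool.Agent.helper5.SI.B6L
import Pool.Agent.helper33.SI.C6Y
import Pool.Agent.helper42.SI.D6C
import Pool.Agent.helper79.SI.I2W
import Pool.Agent.helper54.SI.INV
import Pool.Agent.helper4.SI.T6S
import Pool.Agent.helper73.SI.T6H
import Pool.Agent.helper16.SI.I6W
import Pool.Agent.helper59.SI.NTH
import Pool.Agent.helper12.SI.N6G

/-!
# All rows of part 4 together
-/

set_option autoImplicit false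

namespace Pool.Agent.helper91.SI

theorem All_I2W : I2W_stmt := I2W All_SAM IAD

theorem All_INV : INV_stmt := INV B6L (C6Y P6R) D6C All_I2W

theorem All_N6G : N6G_stmt :=
  N6G (I6W IAD) (T6H All_CFL All_I2W All_INV T6S) (NTH (I6W IAD) All_INV)

theorem All_FI4 : FI4_stmt :=
  FI4 CYG All_N6G All_DE3 STA (STB CYA) TRF PTT (CTT CYA) (SM2 CYA) (PA0 PAB) (PA2 PAB)
    (PA1 LBD PTT) PA4 (CA0 CYA) (CA1 LBD (CTT CYA) CYA)

end Pool.Agent.helper91.SI
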