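import Pool.Agent.helper91.SI.All4
import Pool.Agent.helper91.SI.FI5
import Pool.Agent.helper26.SI.EXI
import Pool.Agent.helper18.SI.MIX
import Pool.Agent.helper3.SI.ONE
import Pool.Agent.helper80.SI.EMB
import Pool.Agent.helper27.SI.CLS
import Pool.Agent.helper5.SI.CPN
import Pool.Agent.helper42.SI.CCN
import Pool.Agent.helper85.SI.SZN
import Pool.Agent.helper27.SI.CNA
import Pool.Agent.helper64.SI.CNB
import Pool.Agent.helper1.SI.CNN

/-!
# All rows of part 5 together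
-/

set_option autoImplicit false

namespace Pool.Agent.helper91.SI

theorem All_ONE : ONE_stmt := ONE MIX All_CFL

theorem All_CLS : CLS_stmt := CLS IAD All_ONE

theorem All_SZN : SZN_stmt :=
  SZN STA (STB CYA) TRF (PA1 LBD PTT) (CA1 LBD (CTT CYA) CYA) (SM2 CYA) (CPN PAB) (CCN CYA CNV)

theorem All_CNA : CNA_stmt := CNA IAD EMB All_CLS All_SZN

theorem All_CNB : CNB_stmt := CNB IAD TRF EMB All_ONE All_CLS All_CNA

theorem All_CNN : CNN_stmt := CNN IAD EXI All_CNB

theorem All_FI5 : FI5_stmt :=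
  FI5 CYG All_N6G All_DE3 All_CNN STA (STB CYA) TRF PTT (CTT CYA) (SM2 CYA) (PA0 PAB) (PA2 PAB)
    (PA1 LBD PTT) PA4 (CA0 CYA) (CA1 LBD (CTT CYA) CYA)

end Pool.Agent.helper91.SI
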