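import Pool.Agent.helper91.SI.Spec2
import Pool.Agent.helper91.SI.FIN

set_option autoImplicit false

namespace Pool.Agent.helper91.SI

open Pool.Agent.helper20.IG (IsIndepDom IsISet iGraph)

theorem FI2 (hCYG : CYG_stmt) (hDEG : DEG_stmt) (hDE2 : DE2_stmt) (hSTA : STA_stmt)
    (hSTB : STB_stmt) (hTRF : TRF_stmt) (hPTT : PTT_stmt) (hCTT : CTT_stmt) (hSM2 : SM2_stmt)
    (hPA0 : PA0_stmt) (hPA2 : PA2_stmt) (hPA1 : PA1_stmt) (hPA4 : PA4_stmt) (hCA0 : CA0_stmt)
    (hCA1 : CA1_stmt) : FI2_stmt := by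
  intro V _ _ G hc hcyc h57 he
  obtain ⟨g3, g4, g5, g6, g7⟩ := hCYG V G
  have n3 : NoTri G := g3 fun v p hp => (hcyc v p hp).1
  have n4 : NoC4 G := g4 fun v p hp => (hcyc v p hp).2.1
  have n6 : NoC6 G := g6 fun v p hp => (hcyc v p hp).2.2
  obtain ⟨e⟩ := he
  have hI4 : NoC4 (iGraph G) := FIN_noC4 _ _ e n4
  have hT : ¬ Three G := by
    rcases h57 with h5 | h7
    · exact hDE2 V G n3 n4 (g5 h5) n6 ⟨e⟩
    · exact fun h => hDEG V G n3 n6 (g7 h7) hI4 (FIN_three _ _ e.symm h)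
  obtain ⟨n, f, hf⟩ := hSTA V G hc hT
  rcases hSTB V G n f hf hT with ⟨⟨g⟩⟩ | ⟨hn, ⟨g⟩⟩
  · have hn0 : n ≠ 0 := by
      rintro rfl
      obtain ⟨v⟩ := hc.nonempty
      exact (f.symm v).elim0
    rcases Nat.lt_or_ge n 3 with h3 | h3
    · have h12 : n = 1 ∨ n = 2 := by omega
      rcases h12 with rfl | rfl
      · left
        rw [FIN_one] at g
        exact ⟨g.symm⟩
      · right
        left
        rw [SimpleGraph.pathGraph_two_eq_top] at g
        exact ⟨g.symm⟩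
    · exfalso
      obtain ⟨t⟩ := hTRF (Fin n) V (SimpleGraph.pathGraph n) G ⟨g⟩
      have hiso : iGraph (SimpleGraph.pathGraph n) ≃g SimpleGraph.pathGraph n :=
        (t.trans e).trans g.symm
      have hm : n % 3 = 0 ∨ n % 3 = 1 ∨ n % 3 = 2 := by omega
      rcases hm with hm | hm | hm
      · exact (hPA0 n h3 hm).false hiso
      · rcases Nat.lt_or_ge n 7 with h7 | h7
        · have h4 : n = 4 := by omega
          subst h4
          exact hPA4.false hiso
        · exact hPA1 n h7 hm (FIN_noC4 _ _ hiso (hPTT n).2)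
      · exact (hPA2 n (by omega) hm).false hiso
  · obtain ⟨m3, m4, m6⟩ := hSM2 V G n n3 n4 n6 ⟨g⟩
    obtain ⟨t⟩ := hTRF (Fin n) V (SimpleGraph.cycleGraph n) G ⟨g⟩
    have hiso : iGraph (SimpleGraph.cycleGraph n) ≃g SimpleGraph.cycleGraph n :=
      (t.trans e).trans g.symm
    have hm : n % 3 = 0 ∨ n % 3 = 1 ∨ n % 3 = 2 := by omega
    right
    right
    rcases hm with hm | hm | hm
    · exact ((hCA0 n (by omega) hm).false hiso).elim
    · rcases Nat.lt_or_ge n 10 with h10 | h10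
      · have h7 : n = 7 := by omega
        subst h7
        exact Or.inl ⟨g.symm⟩
      · exact (hCTT n hn (FIN_three _ _ hiso (hCA1 n h10 hm))).elim
    · exact Or.inr ⟨n, by omega, hm, ⟨g.symm⟩⟩

end Pool.Agent.helper91.SI
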