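import Pool.Agent.helper20.IG.Base

/-!
# Graphs isomorphic to their own i-graph, without cycles of length 3, 4, 6, 7

Spec.  `IsIndepDom`, `IsISet`, `iGraph` are those of `Pool.Agent.helper20.IG.Base`.
-/

set_option autoImplicit false

namespace Pool.Agent.helper91.SI

open Pool.Agent.helper20.IG (IsIndepDom IsISet iGraph)

/-- In the i-set `S` the token `s` can slide to `v`. -/
def Slide {V : Type} [DecidableEq V] (G : SimpleGraph V) (S : Finset V) (s v : V) : Prop :=
  IsISet G S ∧ s ∈ S ∧ v ∉ S ∧ G.Adj s v ∧ IsISet G (insert v (S.erase s))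

/-- no triangle -/
def NoTri {V : Type} (G : SimpleGraph V) : Prop :=
  ∀ a b c, G.Adj a b → G.Adj b c → G.Adj a c → False

/-- no cycle of length 4 -/
def NoC4 {V : Type} (G : SimpleGraph V) : Prop :=
  ∀ a b c d, G.Adj a b → G.Adj b c → G.Adj c d → G.Adj d a → a ≠ c → b ≠ d → False

/-- no cycle of length 6 -/
def NoC6 {V : Type} (G : SimpleGraph V) : Prop :=
  ∀ a b c d e f, [a, b, c, d, e, f].Nodup → G.Adj a b → G.Adj b c → G.Adj c d → G.Adj d e →
    G.Adj e f → G.Adj f a → False

/-- no cycle of length 7 -/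
def NoC7 {V : Type} (G : SimpleGraph V) : Prop :=
  ∀ a b c d e f g, [a, b, c, d, e, f, g].Nodup → G.Adj a b → G.Adj b c → G.Adj c d → G.Adj d e →
    G.Adj e f → G.Adj f g → G.Adj g a → False

/-- some vertex has three different neighbours -/
def Three {V : Type} (G : SimpleGraph V) : Prop :=
  ∃ x a b c, G.Adj x a ∧ G.Adj x b ∧ G.Adj x c ∧ a ≠ b ∧ a ≠ c ∧ b ≠ c

/-- The slides `s → v` and `t → w` of `S` are in conflict: `v ~ w`, or some vertex is adjacent to
`s` and `t` and to no other member of `S`. -/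
def Conf {V : Type} (G : SimpleGraph V) (S : Finset V) (s v t w : V) : Prop :=
  G.Adj v w ∨ ∃ x, G.Adj s x ∧ G.Adj t x ∧ ∀ u ∈ S, G.Adj u x → u = s ∨ u = t

/-- CYC (short).  The hypothesis on closed walks in explicit form.
Proof.  For given vertices write the closed walk with `Walk.cons` / `Walk.nil` and prove `IsCycle`
(`Walk.cons_isCycle_iff`, `simp` with the inequalities); its length is 3, 4, 6, 7.  In `NoTri` and
`NoC4` adjacent vertices are different. -/
def CYC_stmt : Prop := ∀ (V : Type) (G : SimpleGraph V),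
  (∀ (v : V) (p : G.Walk v v), p.IsCycle →
    p.length ≠ 3 ∧ p.length ≠ 4 ∧ p.length ≠ 6 ∧ p.length ≠ 7) →
  NoTri G ∧ NoC4 G ∧ NoC6 G ∧ NoC7 G

/-- IAD (short).  Edges of the i-graph are slides.
Proof.  Unfold.  `X ≠ Y`, `u ∈ X`, `v ∈ Y`, `u ~ v`, `Y = insert v (X.erase u)`: `v ∉ X` because `X` is
independent and `u ~ v`.  Conversely `v ∈ insert v _` and `X ≠ Y` because `v ∈ Y`, `v ∉ X`. -/
def IAD_stmt : Prop := ∀ (V : Type) [DecidableEq V] (G : SimpleGraph V)
  (X Y : {S : Finset V // IsISet G S}),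
  (iGraph G).Adj X Y ↔ ∃ s v, Slide G X.1 s v ∧ Y.1 = insert v (X.1.erase s)

/-- SLD (short).  Private neighbours.
Proof.  Let `S' = insert v (S.erase s)`.  (i) If `t ∈ S`, `t ≠ s`, then `t, v ∈ S'` and `S'` is
independent.  (ii) Let `s ~ x`, `x ≠ v`.  `x ∉ S` (independent), so `x ∉ S'`, and some `t ∈ S'` is
adjacent to `x`.  If `t = v`, then `s, v, x` is a triangle.  So `t ∈ S`, `t ≠ s`. -/
def SLD_stmt : Prop := ∀ (V : Type) [DecidableEq V] (G : SimpleGraph V) (S : Finset V) (s v : V),
  NoTri G → Slide G S s v →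
  (∀ t ∈ S, G.Adj t v → t = s) ∧ ∀ x, G.Adj s x → x ≠ v → ∃ t ∈ S, t ≠ s ∧ G.Adj t x

/-- SAM (short).  A token has at most one slide.
Proof.  If `v ≠ w`, then by SLD (ii) for `v` (with `x = w`) some `t ∈ S`, `t ≠ s` is adjacent to `w`,
but by SLD (i) for `w` this gives `t = s`. -/
def SAM_stmt : Prop := ∀ (V : Type) [DecidableEq V] (G : SimpleGraph V) (S : Finset V)
  (s v w : V), NoTri G → Slide G S s v → Slide G S s w → v = w

/-- DBL (short to medium).  Two slides without conflict can both be made.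
Proof.  `v ≠ w` (the only neighbour of `v` in `S` is `s`, that of `w` is `t`).  Let
`S2 = insert w ((insert v (S.erase s)).erase t)`; its card is `S.card` (`v ∉ S`, `w ∉ S`, `v ≠ w`, `v ≠ t`).
Independent: `v, w` are not adjacent, and by SLD (i) no member of `S` except `s` is adjacent to `v` and
none except `t` to `w`.  Dominating: let `y ∉ S2`.  `y = s`: adjacent to `v`.  `y = t`: adjacent to `w`.
Otherwise `y ∉ S`, some `u ∈ S` is adjacent to `y`.  If `u ≠ s, t`: `u ∈ S2`.  If `u = s`: `y ≠ v`, so by SLD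
(ii) some `u' ∈ S`, `u' ≠ s` is adjacent to `y`; if `u' ≠ t` it is in `S2`; if `u' = t`, then `y` is a common
neighbour of `s` and `t` and the hypothesis gives a third member of `S`, which is in `S2`.  `u = t`: the
same.  An independent dominating set with the card of the i-set `S` is an i-set. -/
def DBL_stmt : Prop := ∀ (V : Type) [DecidableEq V] (G : SimpleGraph V) (S : Finset V)
  (s v t w : V), NoTri G → Slide G S s v → Slide G S t w → s ≠ t → ¬ G.Adj v w →
  (∀ x, G.Adj s x → G.Adj t x → ∃ u ∈ S, u ≠ s ∧ u ≠ t ∧ G.Adj u x) →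
  v ≠ w ∧ IsISet G (insert w ((insert v (S.erase s)).erase t))

/-- CFL (short to medium).  If the i-graph has no 4-cycle, two slides are in conflict.
Proof.  Otherwise DBL applies; `A = S`, `B = insert v (S.erase s)`, `C = insert w (B.erase t)`,
`D = insert w (S.erase t)` are i-sets; `A ~ B` (slide), `B ~ C` (`t ∈ B`, `w ∉ B`), `A ~ D`, and `D ~ C` since
`C = insert v (D.erase s)`.  `A ≠ C` (`v ∈ C`, `v ∉ A`), `B ≠ D` (`v ∈ B`, `v ∉ D`). -/
def CFL_stmt : Prop := ∀ (V : Type) [DecidableEq V] (G : SimpleGraph V) (S : Finset V)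
  (s v t w : V), NoTri G → NoC4 (iGraph G) → Slide G S s v → Slide G S t w → s ≠ t →
  Conf G S s v t w

/-- THR (medium).  Three slides of different tokens which are pairwise in conflict are impossible.
Proof.  `si ∈ S`, `vi ∉ S`, the only neighbour of `vi` in `S` is `si` (SLD (i)), so `v1, v2, v3` are
different.  Write `xij` for a common neighbour of `si, sj` as in `Conf`; `xij ∉ S`; the neighbours of `xij`
in `S` are exactly `si, sj`, so `xij` is different from all `vk` and `x12, x13, x23` are different.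
Three times the first alternative: triangle `v1 v2 v3`.
`v1 ~ v2`, `v2 ~ v3`, `x13`: 6-cycle `s1 v1 v2 v3 s3 x13`.
`v1 ~ v2`, `x13`, `x23`: 7-cycle `s1 v1 v2 s2 x23 s3 x13`.
`x12, x23, x13`: 6-cycle `s1 x12 s2 x23 s3 x13`.
The other cases are the same with the indices exchanged. -/
def THR_stmt : Prop := ∀ (V : Type) [DecidableEq V] (G : SimpleGraph V) (S : Finset V)
  (s1 v1 s2 v2 s3 v3 : V), NoTri G → NoC6 G → NoC7 G →
  Slide G S s1 v1 → Slide G S s2 v2 → Slide G S s3 v3 → s1 ≠ s2 → s1 ≠ s3 → s2 ≠ s3 →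
  Conf G S s1 v1 s2 v2 → Conf G S s1 v1 s3 v3 → Conf G S s2 v2 s3 v3 → False

/-- DEG (short).  The i-graph has maximum degree at most 2.
Proof.  Three different neighbours of `X` are `insert vi (X.erase si)` (IAD); `si = sj` gives `vi = vj`
(SAM) and equal neighbours, so the `si` are different; CFL and THR. -/
def DEG_stmt : Prop := ∀ (V : Type) [DecidableEq V] (G : SimpleGraph V),
  NoTri G → NoC6 G → NoC7 G → NoC4 (iGraph G) → ¬ Three (iGraph G)

/-- STA (medium).  A connected graph without a vertex with three neighbours has a Hamiltonian path.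
Proof.  Take a list `l` of different vertices, consecutive ones adjacent, of maximal length (or a path
of maximal length).  If some vertex is not in `l`, then by connectedness there are `x ∈ l`, `y ∉ l` with
`x ~ y`.  If `x` is the first or the last member of `l`, `l` can be extended; otherwise `x` has three
different neighbours.  So `l` contains all vertices; `f i` = the `i`-th member. -/
def STA_stmt : Prop := ∀ (V : Type) [Fintype V] (G : SimpleGraph V), G.Connected → ¬ Three G →
  ∃ (n : ℕ) (f : Fin n ≃ V), ∀ i j : Fin n, i.val + 1 = j.val → G.Adj (f i) (f j)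

/-- STB (short).  It is a path or a cycle.
Proof.  Let `i.val + 2 ≤ j.val` and `f i ~ f j`.  If `1 ≤ i`: `f i` has the three different neighbours
`f (i-1), f (i+1), f j`.  If `i = 0` and `j + 1 < n`: `f j` has the neighbours `f (j-1), f (j+1), f 0`.  So the
only possible edge besides the consecutive ones is `{f 0, f (n-1)}`, `3 ≤ n`.
`SimpleGraph.pathGraph_adj`, and for `cycleGraph` the adjacency (use CYA). -/
def STB_stmt : Prop := ∀ (V : Type) (G : SimpleGraph V) (n : ℕ) (f : Fin n ≃ V),
  (∀ i j : Fin n, i.val + 1 = j.val → G.Adj (f i) (f j)) → ¬ Three G →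
  Nonempty (SimpleGraph.pathGraph n ≃g G) ∨ (3 ≤ n ∧ Nonempty (SimpleGraph.cycleGraph n ≃g G))

/-- CYA (short).  Adjacency in `cycleGraph n` in natural numbers (`SimpleGraph.cycleGraph_adj'`). -/
def CYA_stmt : Prop := ∀ (n : ℕ), 3 ≤ n → ∀ u v : Fin n, (SimpleGraph.cycleGraph n).Adj u v ↔
  ((u.val + 1) % n = v.val ∨ (v.val + 1) % n = u.val)

/-- TRF (short).  Isomorphic graphs have isomorphic i-graphs.
Proof.  `S ↦ S.map e`; independent dominating sets correspond to independent dominating sets of the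
same card, `(insert v (S.erase u)).map e = insert (e v) ((S.map e).erase (e u))`. -/
def TRF_stmt : Prop := ∀ (V W : Type) [DecidableEq V] [DecidableEq W] (G : SimpleGraph V)
  (H : SimpleGraph W), Nonempty (G ≃g H) → Nonempty (iGraph G ≃g iGraph H)

/-- LBD (short).  `V` is the union of the closed neighbourhoods of the members of `S`, each of which has
at most 3 elements. -/
def LBD_stmt : Prop := ∀ (V : Type) [Fintype V] (G : SimpleGraph V), ¬ Three G →
  ∀ S, IsIndepDom G S → Fintype.card V ≤ 3 * S.card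

/-- PTT (short).  Paths: no vertex with three neighbours, no 4-cycle (`SimpleGraph.pathGraph_adj`). -/
def PTT_stmt : Prop := ∀ n : ℕ, ¬ Three (SimpleGraph.pathGraph n) ∧ NoC4 (SimpleGraph.pathGraph n)

/-- CTT (short).  Cycles: no vertex with three neighbours (use CYA). -/
def CTT_stmt : Prop := ∀ n : ℕ, 3 ≤ n → ¬ Three (SimpleGraph.cycleGraph n)

/-- SML (short).  The graph contains no cycle of length 3, 4, 6, 7, so it is not one of these cycles.
Proof.  Transport the vertices `0, 1, ..., n-1` of `cycleGraph n` (adjacency by `decide`). -/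
def SML_stmt : Prop := ∀ (V : Type) (G : SimpleGraph V) (n : ℕ), NoTri G → NoC4 G → NoC6 G →
  NoC7 G → Nonempty (SimpleGraph.cycleGraph n ≃g G) → n ≠ 3 ∧ n ≠ 4 ∧ n ≠ 6 ∧ n ≠ 7

/-- PAB (medium).  Structure of the i-sets of a path with `n = 3k` or `n = 3k-1` vertices `0, ..., n-1`:
exactly one token in each block `{3j, 3j+1, 3j+2}` (`j < k`), and it is not `3j+2`.
Proof.  `D = {x | x % 3 = 1}` is an independent dominating set with `k` elements, so an i-set `S` has at most
`k` elements.  The closed neighbourhood of `3j+1` (`j < k`) is contained in block `j`, so `S` meets each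
block; the blocks are disjoint, so `S` has exactly one element `x` with `x / 3 = j` for each `j < k`.
By induction on `j`: `3j+2 ∉ S`.  `j = 0`: the vertex `0` is dominated by `0` or `1`, one of which is the only
element of block 0.  Step: if `3j+5 ∈ S`, then it is the only element of block `j+1`, and `3j+3` is
dominated only by `3j+2`, a contradiction. -/
def PAB_stmt : Prop := ∀ (n k : ℕ), (n = 3 * k ∨ n + 1 = 3 * k) → 1 ≤ k → 2 ≤ n →
  ∀ S, IsISet (SimpleGraph.pathGraph n) S →
  (∀ j < k, ∃ x ∈ S, x.val / 3 = j) ∧ (∀ x ∈ S, ∀ y ∈ S, x.val / 3 = y.val / 3 → x = y) ∧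
  (∀ x ∈ S, x.val % 3 ≠ 2)

/-- PA0 (short to medium).  `n = 3k`: there is only one i-set, so no isomorphism (`n ≥ 3` vertices).
Proof.  By PAB each block has one token, `3j` or `3j+1`.  It is not `3j`: otherwise `3j+2` (`< n`) must be
dominated by `3j+3` (`3j+1, 3j+2 ∉ S`), so `3j+3 ∈ S`, and going on, `3(k-1) ∈ S`, and then the last
vertex `3k-1` is not dominated.  So `S = {x | x % 3 = 1}` for each i-set `S`; the equivalence of
`{S // IsISet _ S}` with `Fin n` gives `n ≤ 1`. -/
def PA0_stmt : Prop := ∀ n : ℕ, 3 ≤ n → n % 3 = 0 →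
  IsEmpty (iGraph (SimpleGraph.pathGraph n) ≃g SimpleGraph.pathGraph n)

/-- PA2 (medium).  `n = 3k-1`, `2 ≤ k`: at most `k+1 < n` i-sets.
Proof.  By PAB the token of block `j` is `3j` or `3j+1`.  If it is `3j` and `j + 1 < k`, then `3j+2` must be
dominated by `3j+3`, so the token of block `j+1` is `3j+3`.  Hence for two i-sets `S, S'` with the same
number `t` of elements `≡ 1 (mod 3)` we have `S = S'`: both are `{3j+1 | j < t} ∪ {3j | t ≤ j < k}`.
(Equivalently: `S ↦ t` is injective into `{0, ..., k}`.)  So `{S // IsISet _ S}` has at most `k+1` elements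
and `k + 1 < 3k - 1 = n`. -/
def PA2_stmt : Prop := ∀ n : ℕ, 5 ≤ n → n % 3 = 2 →
  IsEmpty (iGraph (SimpleGraph.pathGraph n) ≃g SimpleGraph.pathGraph n)

/-- PA1 (medium).  `n = 3k+1`, `2 ≤ k`: a 4-cycle in the i-graph.
Proof.  `A = {x | x % 3 = 0}`, `B = insert 1 (A.erase 0)`, `D = insert (n-2) (A.erase (n-1))`,
`C = insert (n-2) (B.erase (n-1)) = insert 1 (D.erase 0)`; all four are independent dominating sets with
`k+1` elements, and an independent dominating set has at least `k+1` elements by LBD (PTT).  `A ~ B`,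
`B ~ C`, `C ~ D`, `D ~ A` (slides `0 → 1`, `n-1 → n-2`), `A ≠ C`, `B ≠ D`. -/
def PA1_stmt : Prop := ∀ n : ℕ, 7 ≤ n → n % 3 = 1 → ¬ NoC4 (iGraph (SimpleGraph.pathGraph n))

/-- PA4 (short).  `n = 4`: exactly three i-sets `{0,2}, {0,3}, {1,3}` (`decide` over the subsets of
`Fin 4`), and `3 ≠ 4`. -/
def PA4_stmt : Prop := IsEmpty (iGraph (SimpleGraph.pathGraph 4) ≃g SimpleGraph.pathGraph 4)

/-- CA0 (medium).  `n = 3k ≥ 6`: the i-graph of the cycle has no edge, but the cycle has one.
Proof.  `{x | x % 3 = 0}` is an independent dominating set with `k` elements, so an i-set `S` has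
`3 |S| ≤ n`.  Double counting of the pairs `(y, s)`, `s ∈ S`, `s = y` or `s ~ y`: there are `3 |S| ≤ n` of them
and at least one for each `y`, so exactly one for each `y`.  Let `u → v` be a slide, `S' = insert v (S.erase u)`
and `y` the neighbour of `u` different from `v`.  `y` is dominated in `S` only by `u`, and `v` is not equal
or adjacent to `y` (`n ≥ 6`), so `S'` does not dominate `y`. -/
def CA0_stmt : Prop := ∀ n : ℕ, 6 ≤ n → n % 3 = 0 →
  IsEmpty (iGraph (SimpleGraph.cycleGraph n) ≃g SimpleGraph.cycleGraph n)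

/-- CA1 (medium).  `n = 3k+1 ≥ 10`: an i-set of the cycle with three slides.
Proof.  `T = {x | x = 0 ∨ x = 2 ∨ x = 5 ∨ (7 ≤ x ∧ x % 3 = 1 ∧ x + 3 ≤ n)}` has `k+1` elements and is
independent and dominating; an independent dominating set has at least `k+1` elements by LBD (CTT).  The
sets `insert (n-1) (T.erase 0)`, `insert 3 (T.erase 2)`, `insert 4 (T.erase 5)` are also independent and
dominating with `k+1` elements, they are pairwise different and adjacent to `T` in the i-graph. -/
def CA1_stmt : Prop := ∀ n : ℕ, 10 ≤ n → n % 3 = 1 → Three (iGraph (SimpleGraph.cycleGraph n))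

/-- CNV (medium to long, OPTIONAL).  The known converse.
Proof.  `n = 3m+2`.  For `x : Fin n` let `S x` be the set of the `y` for which
`((y - (x+1)) mod n) % 3 = 0`, i.e. `x+1, x+4, ..., x+1+3m = x-1`.  (1) `S x` is independent and dominating
with `m+1` elements, an i-set by LBD.  (2) Each i-set is `S x` for exactly one `x`: the number of pairs
`(y, s)`, `s ∈ S`, `s = y` or `s ~ y`, is `3(m+1) = n+1`, so exactly one `y = x` has two of them, `x ∉ S` and
`x-1, x+1 ∈ S`, and going around from `x+1` each further member is forced.  (3) `S x ~ S (x+3)` (slide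
`x+1 → x+2`), and these are the only edges.  (4) `i ↦ S (3 i mod n)` is an isomorphism from
`cycleGraph n`, as `gcd (3, n) = 1`. -/
def CNV_stmt : Prop := ∀ n : ℕ, 5 ≤ n → n % 3 = 2 →
  Nonempty (iGraph (SimpleGraph.cycleGraph n) ≃g SimpleGraph.cycleGraph n)

/-- Final statement. -/
def FIN_stmt : Prop := ∀ (V : Type) [Fintype V] [DecidableEq V] (G : SimpleGraph V), G.Connected →
  (∀ (v : V) (p : G.Walk v v), p.IsCycle →
    p.length ≠ 3 ∧ p.length ≠ 4 ∧ p.length ≠ 6 ∧ p.length ≠ 7) →
  Nonempty (iGraph G ≃g G) →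
  Nonempty (G ≃g (⊤ : SimpleGraph (Fin 1))) ∨ Nonempty (G ≃g (⊤ : SimpleGraph (Fin 2))) ∨
    ∃ k, 5 ≤ k ∧ k % 3 = 2 ∧ Nonempty (G ≃g SimpleGraph.cycleGraph k)

end Pool.Agent.helper91.SI
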