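import Pool.Agent.helper91.SI.Spec

/-!
# Graphs isomorphic to their own i-graph: cycles of length 7 allowed, cycles of length 5 excluded

Second part of the project (continues `Spec`).
-/

set_option autoImplicit false

namespace Pool.Agent.helper91.SI

open Pool.Agent.helper20.IG (IsIndepDom IsISet iGraph)

/-- no cycle of length 5 -/
def NoC5 {V : Type} (G : SimpleGraph V) : Prop :=
  ∀ a b c d e, [a, b, c, d, e].Nodup → G.Adj a b → G.Adj b c → G.Adj c d → G.Adj d e →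
    G.Adj e a → False

/-- `x` is a cycle of length 7 -/
def Cyc7 {V : Type} (G : SimpleGraph V) (x : ZMod 7 → V) : Prop :=
  Function.Injective x ∧ ∀ k, G.Adj (x k) (x (k + 1))

/-- a cycle of length 7 one vertex of which has a neighbour outside the cycle -/
def P1 {V : Type} (G : SimpleGraph V) : Prop :=
  ∃ (x : ZMod 7 → V) (y : V), Cyc7 G x ∧ (∀ k, y ≠ x k) ∧ G.Adj (x 0) y

/-- two different cycles of length 7 with a common path of length 3 -/
def P2 {V : Type} (G : SimpleGraph V) : Prop :=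
  ∃ x x' : ZMod 7 → V, Cyc7 G x ∧ Cyc7 G x' ∧ x 0 = x' 0 ∧ x 1 = x' 1 ∧ x 2 = x' 2 ∧ x 3 = x' 3 ∧
    x 5 ≠ x' 5

/-- PRM (short).  Permutations of 7 elements without fixed points.
Proof.  By `decide` (5040 permutations, `decide +kernel`), or: the orbits have sizes 2, ..., 7 with sum 7, so
there is an orbit of size 3 or 5 or there is only one orbit. -/
def PRM_stmt : Prop := ∀ τ : Equiv.Perm (ZMod 7), (∀ t, τ t ≠ t) →
  (∃ t, τ (τ (τ t)) = t) ∨ (∃ t, τ (τ (τ (τ (τ t)))) = t) ∨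
    ((τ ^ 7) 0 = 0 ∧ ∀ i, ∃ k : Fin 7, (τ ^ (k : ℕ)) 0 = i)

/-- BAL (short to medium).  Balance of the slides of a closed walk of length 7 in the i-graph.
Proof.  For each `x`: `[x ∈ S (t+1)] = [x ∈ S t] + [x = v t] - [x = s t]` (indicators, `s t ∈ S t`,
`v t ∉ S t`), and the sum over all `t` of `[x ∈ S (t+1)] - [x ∈ S t]` is 0 (shift).  So `v` and `s` take each value
equally often, hence `v = s ∘ τ` for a permutation `τ` (`Multiset.map_univ_eq_iff`, or fibres of equal card: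
`Equiv.ofFiberEquiv`). -/
def BAL_stmt : Prop := ∀ (V : Type) [DecidableEq V] (S : ZMod 7 → Finset V) (s v : ZMod 7 → V),
  (∀ t, s t ∈ S t) → (∀ t, v t ∉ S t) → (∀ t, S (t + 1) = insert (v t) ((S t).erase (s t))) →
  ∃ τ : Equiv.Perm (ZMod 7), ∀ t, v t = s (τ t)

/-- CY7 (medium).  The slides run once around a cycle of length 7.
Proof.  `τ t ≠ t` (no loops).  A closed walk of length 3 is a triangle.  A closed walk `p0 p1 p2 p3 p4` of
length 5 is a 5-cycle: consecutive vertices are different, and `p_i = p_(i+2)` gives the triangle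
`p_(i+2), p_(i+3), p_(i+4)`.  So `τ³ t ≠ t` and `τ⁵ t ≠ t` for all `t`, and by PRM `τ⁷ 0 = 0` and
`k ↦ τ^k 0` (`k = 0..6`) is onto, hence bijective.  `z k = s (τ^k 0)` (`k` as a natural number below 7),
`κ` = the inverse of `k ↦ τ^k 0`.  `z k ~ z (k+1)` also for `k = 6`.  Injective: if two of the seven vertices
of the closed walk coincide, at distance `d ∈ {1,...,6}`, then `d = 1, 6` is impossible (loop), `d = 3, 4`
gives a closed walk of length 3, `d = 2, 5` a closed walk of length 5. -/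
def CY7_stmt : Prop := ∀ (V : Type) (G : SimpleGraph V) (s : ZMod 7 → V)
  (τ : Equiv.Perm (ZMod 7)), NoTri G → NoC5 G → (∀ t, G.Adj (s t) (s (τ t))) →
  ∃ (z : ZMod 7 → V) (κ : Equiv.Perm (ZMod 7)), Cyc7 G z ∧
    ∀ t, s t = z (κ t) ∧ s (τ t) = z (κ t + 1)

/-- DSC (medium).  Explicit form of such a closed walk.
Proof.  `R = S 0 \ image z`; as all slides are in the image of `z`, `S t \ image z = R` for all `t`.  Each `z k`
is `z (κ t + 1) ∈ S (t+1)` for some `t`, and `R ⊆ S (t+1)` is independent of it: no `r ∈ R` is adjacent to a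
`z k`.  No chords: `z j ~ z k` implies `j = k + 1` or `k = j + 1` (otherwise a cycle of length 3, 4, 5 or 6).
Let `T t = {k | z k ∈ S t}`.  `T t` does not contain `k, k+1`, and for `k ∉ T t`, `k-1` or `k+1` is in `T t`
(`z k ∉ S t` is dominated by some member of `S t`, which is not in `R`).  So (`decide` over the subsets of
`ZMod 7`) `T t = {j, j+2, j+4}` for some `j = j t`.  `T (t+1) = insert (κ t + 1) ((T t).erase (κ t))` is also of
this form, which gives (`decide`) `κ t = j t + 4`, `j (t+1) = j t + 5`; so `j t = j 0 + 5 t`.  Put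
`z' k = z (k + j 0)`. -/
def DSC_stmt : Prop := ∀ (V : Type) [DecidableEq V] (G : SimpleGraph V) (S : ZMod 7 → Finset V)
  (z : ZMod 7 → V) (κ : Equiv.Perm (ZMod 7)), NoTri G → NoC4 G → NoC5 G → NoC6 G →
  (∀ t, IsIndepDom G (S t)) → Cyc7 G z →
  (∀ t, z (κ t) ∈ S t ∧ z (κ t + 1) ∉ S t ∧
    S (t + 1) = insert (z (κ t + 1)) ((S t).erase (z (κ t)))) →
  ∃ (R : Finset V) (z' : ZMod 7 → V), Cyc7 G z' ∧ (∀ k, z' k ∉ R) ∧
    (∀ k, ∀ r ∈ R, ¬ G.Adj r (z' k)) ∧
    ∀ t, S t = R ∪ {z' (5 * t), z' (5 * t + 2), z' (5 * t + 4)}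

/-- CIR (short).  Cycles of length 7 in the i-graph.
Proof.  IAD gives the slides `s t → v t` of `S t`; BAL, CY7, DSC. -/
def CIR_stmt : Prop := ∀ (V : Type) [DecidableEq V] (G : SimpleGraph V),
  NoTri G → NoC4 G → NoC5 G → NoC6 G → ∀ S : ZMod 7 → {S : Finset V // IsISet G S},
  Cyc7 (iGraph G) S →
  ∃ (R : Finset V) (z : ZMod 7 → V), Cyc7 G z ∧ (∀ k, z k ∉ R) ∧
    (∀ k, ∀ r ∈ R, ¬ G.Adj r (z k)) ∧
    ∀ t, (S t).1 = R ∪ {z (5 * t), z (5 * t + 2), z (5 * t + 4)}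

/-- TH2 (medium).  Three slides pairwise in conflict, cycles of length 7 allowed.
Proof.  As THR in `Spec` (do not cite it): `si ∈ S`, `vi ∉ S`, the only neighbour of `vi` in `S` is `si`
(SLD (i)), the neighbours of `xij` in `S` are exactly `si, sj`.  Triangle `v1 v2 v3`, or a 6-cycle
`s1 v1 v2 v3 s3 x13`, or a 6-cycle `s1 x12 s2 x23 s3 x13`, or (two of the three conflicts by a common
neighbour, say `v1 ~ v2`, `x13`, `x23`) the 7-cycle `s3 x13 s1 v1 v2 s2 x23`, and `v3` is adjacent to `s3` and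
not on it: P1.  The other cases are the same with the indices exchanged. -/
def TH2_stmt : Prop := ∀ (V : Type) [DecidableEq V] (G : SimpleGraph V) (S : Finset V)
  (s1 v1 s2 v2 s3 v3 : V), NoTri G → NoC6 G →
  Slide G S s1 v1 → Slide G S s2 v2 → Slide G S s3 v3 → s1 ≠ s2 → s1 ≠ s3 → s2 ≠ s3 →
  Conf G S s1 v1 s2 v2 → Conf G S s1 v1 s3 v3 → Conf G S s2 v2 s3 v3 → P1 G

/-- PP (medium).  Proof.  Let `S` be the 7-cycle and `Y ~ S 0` the outside neighbour, `Y ≠ S k`.  CIR: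
`S 0 = R ∪ {z0, z2, z4}`, `S 1 = R ∪ {z0, z2, z5}`, `S 6 = R ∪ {z2, z4, z6}`, `S 2 = R ∪ {z0, z3, z5}`.  At `S 0` there
are the slides `z4 → z5` (to `S 1`), `z0 → z6` (to `S 6`) and `r → r'` (to `Y`, IAD); by SAM `r ≠ z4, z0`.
CFL: `r → r'` is in conflict with `z4 → z5` and with `z0 → z6`.  By SLD (i) the only neighbour in `S 0` of
`r', z5, z6` is `r, z4, z0`, so these are different.  `z5 ~ r'` and `z6 ~ r'`: triangle with `z5 ~ z6`.  `z5 ~ r'` and
a common neighbour `w0` of `z0, r` (no other neighbour in `S 0`): 6-cycle `r r' z5 z6 z0 w0`.  `z6 ~ r'` and a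
common neighbour `w4` of `z4, r`: 6-cycle `r r' z6 z5 z4 w4`.  So there are both `w0` and `w4` (different, as
their neighbours in `S 0` are `z0, r` and `z4, r`), and `z4 z5 z6 z0 w0 r w4` is a 7-cycle.  `r ≠ z2`: otherwise
`r'` is adjacent to `z2` and to no other member of `S 0`, `r' ∉ R`, `r'` is no `z k` (`z1`, `z3` are adjacent to `z0`,
`z4`; a chord gives a cycle of length 3 to 6), so `r' ∉ S 2` is adjacent to a member of `S 2`: not in `R ⊆ S 0`;
`z3`: triangle; `z0`: 4-cycle `z0 z1 z2 r'`; `z5`: 5-cycle `r' z2 z3 z4 z5`.  P2 with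
`x k = z (k + 4)`, `x' = (z4, z5, z6, z0, w0, r, w4)`. -/
def PP_stmt : Prop := ∀ (V : Type) [DecidableEq V] (G : SimpleGraph V),
  NoTri G → NoC4 G → NoC5 G → NoC6 G → NoC4 (iGraph G) → P1 (iGraph G) → P2 G

/-- PX (medium).  Proof.  CIR for both cycles: `S t = R ∪ {z (5t), ..}`, `S' t = R' ∪ {z' (5t), ..}`, equal for
`t = 0, 1, 2, 3`.  `S 0 \ S 1 = {z 4}`, `S 1 \ S 0 = {z 5}`, `S 1 \ S 2 = {z 2}`, `S 2 \ S 1 = {z 3}`,
`S 2 \ S 3 = {z 0}`, `S 3 \ S 2 = {z 1}`, so `z k = z' k` for `k ≤ 5`; `z 6, z' 6` are common neighbours of `z 5` and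
`z 0`, so equal by NoC4.  `R = S 0 \ {z 0, z 2, z 4} = R'`.  So `S 5 = S' 5`. -/
def PX_stmt : Prop := ∀ (V : Type) [DecidableEq V] (G : SimpleGraph V),
  NoTri G → NoC4 G → NoC5 G → NoC6 G → P2 (iGraph G) → False

/-- DE2 (short).  Proof.  `NoC4 (iGraph G)` by the isomorphism.  If `Three G`, then `Three (iGraph G)`; the three
neighbours of `X` come from slides (IAD) of three different tokens (SAM), pairwise in conflict (CFL), so `P1 G`
(TH2), `P1 (iGraph G)` by the isomorphism, `P2 G` (PP), `P2 (iGraph G)`, contradiction (PX). -/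
def DE2_stmt : Prop := ∀ (V : Type) [DecidableEq V] (G : SimpleGraph V),
  NoTri G → NoC4 G → NoC5 G → NoC6 G → Nonempty (iGraph G ≃g G) → ¬ Three G

/-- CYG (short).  The five hypotheses in explicit form (as CYC in `Spec`). -/
def CYG_stmt : Prop := ∀ (V : Type) (G : SimpleGraph V),
  ((∀ (v : V) (p : G.Walk v v), p.IsCycle → p.length ≠ 3) → NoTri G) ∧
  ((∀ (v : V) (p : G.Walk v v), p.IsCycle → p.length ≠ 4) → NoC4 G) ∧
  ((∀ (v : V) (p : G.Walk v v), p.IsCycle → p.length ≠ 5) → NoC5 G) ∧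
  ((∀ (v : V) (p : G.Walk v v), p.IsCycle → p.length ≠ 6) → NoC6 G) ∧
  ((∀ (v : V) (p : G.Walk v v), p.IsCycle → p.length ≠ 7) → NoC7 G)

/-- SM2 (short).  As SML in `Spec`. -/
def SM2_stmt : Prop := ∀ (V : Type) (G : SimpleGraph V) (n : ℕ), NoTri G → NoC4 G → NoC6 G →
  Nonempty (SimpleGraph.cycleGraph n ≃g G) → n ≠ 3 ∧ n ≠ 4 ∧ n ≠ 6

/-- Final statement 2. -/
def FI2_stmt : Prop := ∀ (V : Type) [Fintype V] [DecidableEq V] (G : SimpleGraph V), G.Connected →
  (∀ (v : V) (p : G.Walk v v), p.IsCycle → p.length ≠ 3 ∧ p.length ≠ 4 ∧ p.length ≠ 6) →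
  ((∀ (v : V) (p : G.Walk v v), p.IsCycle → p.length ≠ 5) ∨
    (∀ (v : V) (p : G.Walk v v), p.IsCycle → p.length ≠ 7)) →
  Nonempty (iGraph G ≃g G) →
  Nonempty (G ≃g (⊤ : SimpleGraph (Fin 1))) ∨ Nonempty (G ≃g (⊤ : SimpleGraph (Fin 2))) ∨
    Nonempty (G ≃g SimpleGraph.cycleGraph 7) ∨
    ∃ k, 5 ≤ k ∧ k % 3 = 2 ∧ Nonempty (G ≃g SimpleGraph.cycleGraph k)

end Pool.Agent.helper91.SI
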