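import Pool.Agent.helper91.SI.Spec2

/-!
# Graphs isomorphic to their own i-graph: only cycles of length 3, 4, 6 excluded

Third part of the project (continues `Spec` and `Spec2`).
-/

set_option autoImplicit false

namespace Pool.Agent.helper91.SI

open Pool.Agent.helper20.IG (IsIndepDom IsISet iGraph)

/-- a closed walk of slides of length 7 through different i-sets -/
def W7 {V : Type} [DecidableEq V] (G : SimpleGraph V) (S : ZMod 7 → Finset V)
    (s v : ZMod 7 → V) : Prop :=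
  (∀ t, IsISet G (S t)) ∧ Function.Injective S ∧
    ∀ t, s t ∈ S t ∧ v t ∉ S t ∧ G.Adj (s t) (v t) ∧ S (t + 1) = insert (v t) ((S t).erase (s t))

/-- Five of the seven slides are `q i → q (i+1)` on a cycle `q` of length 5, the other two are
`r → r'` (time `a`) and `r' → r` (time `b`). -/
def MT {V : Type} [DecidableEq V] (G : SimpleGraph V) (S : ZMod 7 → Finset V) (s v : ZMod 7 → V)
    (q : ZMod 5 → V) (r r' : V) (a b : ZMod 7) (ρ : ZMod 5 → ZMod 7) : Prop :=
  W7 G S s v ∧ Function.Injective q ∧ (∀ i, G.Adj (q i) (q (i + 1))) ∧ Function.Injective ρ ∧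
    a ≠ b ∧ (∀ i, ρ i ≠ a ∧ ρ i ≠ b) ∧ (∀ i, s (ρ i) = q i ∧ v (ρ i) = q (i + 1)) ∧
    s a = r ∧ v a = r' ∧ s b = r' ∧ v b = r

/-- NB1 (short).  The token which has just moved does not move.
Proof.  `v t → s t` is a slide of `S (t+1)` (back to `S t`; `s t ∉ S (t+1)`).  If `s (t+1) = v t`, then
`v (t+1) = s t` by SAM and `S (t+2) = S t`, against the injectivity of `S` (`t + 2 ≠ t`). -/
def NB1_stmt : Prop := ∀ (V : Type) [DecidableEq V] (G : SimpleGraph V) (S : ZMod 7 → Finset V)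
  (s v : ZMod 7 → V), NoTri G → W7 G S s v → ∀ t, s (t + 1) ≠ v t

/-- NM1 (short to medium).  The two slides of the pair are at distance 3.
Proof.  `b - a ∈ {1,...,6}`.  `b = a + 1` and `a = b + 1` are excluded by NB1 (`s b = r' = v a`).  Let `b = a + 2`
and `x → y` the slide at `a + 1`.  `x ≠ r'` (NB1).  `y ≠ r` (otherwise `r, r' ∈ S (a+2)`, adjacent).  So
`x ∈ S a`, `y ∉ S a`, and `S (a+3) = insert y ((S a).erase x)`: `S a ~ S (a+3)` in the i-graph, and
`S a, S (a+1), S (a+2), S (a+3)` is a 4-cycle in it.  `a = b + 2`: the same with the roles of `r, r'` exchanged. -/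
def NM1_stmt : Prop := ∀ (V : Type) [DecidableEq V] (G : SimpleGraph V) (S : ZMod 7 → Finset V)
  (s v : ZMod 7 → V) (q : ZMod 5 → V) (r r' : V) (a b : ZMod 7) (ρ : ZMod 5 → ZMod 7),
  NoTri G → NoC4 (iGraph G) → MT G S s v q r r' a b ρ → b = a + 3 ∨ a = b + 3

/-- NMC (medium).  Always exactly two tokens on the 5-cycle.
Proof.  `T t = {i | q i ∈ S t}` contains no two consecutive elements, so it has at most 2 elements.  Every
`t ≠ a, b` is `ρ i` for exactly one `i` (7 = 5 + 2), so the slide at `t` is `q i → q (i+1)` and `T (t+1)` and `T t`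
have the same card.  If the slides at `t` and `t+1` are both of this kind, then `v t` and `s (t+1) ≠ v t` (NB1)
are two tokens of `S (t+1)` on the 5-cycle: `T (t+1)` has 2 elements.  Let `b = a + 3`: this holds for
`t + 1 = a + 2` and `a + 5, a + 6`, hence for `a+1, a+2, a+3` and `a+4, ..., a+7 = a`.  The same if `a = b + 3`.
A 2-element subset of `ZMod 5` without two consecutive elements is `{j, j+2}` (`decide`). -/
def NMC_stmt : Prop := ∀ (V : Type) [DecidableEq V] (G : SimpleGraph V) (S : ZMod 7 → Finset V)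
  (s v : ZMod 7 → V) (q : ZMod 5 → V) (r r' : V) (a b : ZMod 7) (ρ : ZMod 5 → ZMod 7),
  NoTri G → NoC4 (iGraph G) → MT G S s v q r r' a b ρ →
  ∀ t, ∃ j : ZMod 5, ∀ i, q i ∈ S t ↔ (i = j ∨ i = j + 2)

/-- NM2 (medium).  Both `r` and `r'` on the 5-cycle is impossible.
Proof.  `r = q i`, `r' = q i'` are adjacent, so `i' = i + 1` or `i = i' + 1` (a chord of the 5-cycle gives a
triangle), and every slide is `q x → q (x+1)` or `q x → q (x-1)`.  `T t = {j, j+2}` (NMC, `j = j t`).  From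
`{j, j+2}` the first kind is possible only as `j+2 → j+3`, with `j (t+1) = j + 3`, the second only as
`j → j-1`, with `j (t+1) = j + 2` (`decide`).  No change of kind between `t` and `t+1`: otherwise
`T (t+2) = T t`, and since `S t` changes only on the 5-cycle, `S (t+2) = S t`.  So all seven steps are of one
kind, `j (t+7) = j t + 21` or `j t + 14`, i.e. `j t + 1` or `j t - 1`: contradiction to `t + 7 = t`. -/
def NM2_stmt : Prop := ∀ (V : Type) [DecidableEq V] (G : SimpleGraph V) (S : ZMod 7 → Finset V)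
  (s v : ZMod 7 → V) (q : ZMod 5 → V) (r r' : V) (a b : ZMod 7) (ρ : ZMod 5 → ZMod 7),
  NoTri G → NoC4 (iGraph G) → MT G S s v q r r' a b ρ → (∃ i, q i = r) → (∃ i, q i = r') → False

/-- NM3 (medium).  Both `r` and `r'` outside the 5-cycle is impossible.
Proof.  Every slide except those at `a` and `b = a + 3` is `q x → q (x+1)`.  By NMC `T a = {j, j+2}`; replace
`q` by `i ↦ q (i + j)` to have `j = 0`.  `T (a+1) = {0, 2}`.  From `{j, j+2}` the only possible slide
`x → x+1` is `j+2 → j+3`.  So the slides at `a+1, a+2` are `q2 → q3`, `q0 → q1`; `T (a+2) = {0, 3}`,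
`T (a+3) = T (a+4) = {1, 3}`.  Let `R = S a \ {r, q0, q2}`: `S a = R ∪ {r, q0, q2}`, `S (a+1) = R ∪ {r', q0, q2}`,
`S (a+2) = R ∪ {r', q0, q3}`, `S (a+3) = R ∪ {r', q1, q3}`, `S (a+4) = R ∪ {r, q1, q3}`.
`X = insert q3 ((S a).erase q2) = R ∪ {r, q0, q3}` is not an i-set: otherwise `S a, S (a+1), S (a+2), X` is a
4-cycle of the i-graph.  It is independent with the card of `S a` (`q3` is not adjacent to `r`, `R`
(`S (a+4)`) and not to `q0` (chord)), so some `y ∉ X` is adjacent to no member of `X`; `y ≠ q2` (adjacent to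
`q3`), so `y ∉ S a` is adjacent to `q2` and to no other member of `S a`.  In `S (a+2)`: `y ≠ r'` (`r', q2 ∈ S (a+1)`
are not adjacent), so `y ∉ S (a+2)`, and `y` is adjacent to a member of `S (a+2)`.  In `S (a+4)`: `y ≠ q1` (`q1` is
adjacent to `q0`), `y ≠ r`, `y ≠ q3`, `y ∉ R`, so `y` is adjacent to a member of `S (a+4)`: not in `R`, not `r`
(members of `S a` different from `q2`), `q1`: triangle `y q1 q2`, `q3`: triangle `y q3 q2`.  Contradiction. -/
def NM3_stmt : Prop := ∀ (V : Type) [DecidableEq V] (G : SimpleGraph V) (S : ZMod 7 → Finset V)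
  (s v : ZMod 7 → V) (q : ZMod 5 → V) (r r' : V) (a b : ZMod 7) (ρ : ZMod 5 → ZMod 7),
  NoTri G → NoC4 (iGraph G) → MT G S s v q r r' a b ρ → b = a + 3 → (∀ i, q i ≠ r) →
  (∀ i, q i ≠ r') → False

/-- NOM (short).  Proof.  NM1: `b = a + 3`, or `a = b + 3` and then `MT G S s v q r' r b a ρ`.  If exactly one
of `r, r'` is some `q i`, then the card of `T (a+1)` and `T a` differ by one, against NMC.  NM2, NM3. -/
def NOM_stmt : Prop := ∀ (V : Type) [DecidableEq V] (G : SimpleGraph V) (S : ZMod 7 → Finset V)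
  (s v : ZMod 7 → V) (q : ZMod 5 → V) (r r' : V) (a b : ZMod 7) (ρ : ZMod 5 → ZMod 7),
  NoTri G → NoC4 (iGraph G) → MT G S s v q r r' a b ρ → False

/-- CYM (medium).  The two kinds of closed walks of slides.
Proof.  As CY7 in `Spec2` (do not cite it).  `τ t ≠ t`, no `τ³ t = t` (triangle).  A closed walk of length 5
in a triangle-free graph has five different vertices.  PRM: (1) if `τ⁵ t = t`, then `t, τ t, ..., τ⁴ t` are
different, `q i = s (τ^i t)`, `ρ i = τ^i t`, and the remaining two elements `a, b` are exchanged by `τ`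
(no fixed points); `r = s a`, `r' = s b`.  (2) Otherwise `p k = s (τ^k 0)` is a closed walk of length 7.  If
the `p k` are different: first alternative, as in CY7.  If two coincide, at distance `d`, `d = 1, 6` and
`d = 3, 4` (triangle) are impossible, so `p k = p (k+2)` for some `k` (mod 7; `d = 5` is `d = 2` from the other
side).  Then `q i = p (k+2+i)` (`i = 0..4`, `q 4 ~ p (k+7) = p k = q 0`), `ρ i = τ^(k+2+i) 0`, `a = τ^k 0`,
`b = τ^(k+1) 0`, `r = p k`, `r' = p (k+1)`. -/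
def CYM_stmt : Prop := ∀ (V : Type) (G : SimpleGraph V) (s : ZMod 7 → V)
  (τ : Equiv.Perm (ZMod 7)), NoTri G → (∀ t, G.Adj (s t) (s (τ t))) →
  (∃ (z : ZMod 7 → V) (κ : Equiv.Perm (ZMod 7)), Cyc7 G z ∧
    ∀ t, s t = z (κ t) ∧ s (τ t) = z (κ t + 1)) ∨
  ∃ (q : ZMod 5 → V) (r r' : V) (a b : ZMod 7) (ρ : ZMod 5 → ZMod 7), Function.Injective q ∧
    (∀ i, G.Adj (q i) (q (i + 1))) ∧ Function.Injective ρ ∧ a ≠ b ∧ (∀ i, ρ i ≠ a ∧ ρ i ≠ b) ∧
    (∀ i, s (ρ i) = q i ∧ s (τ (ρ i)) = q (i + 1)) ∧ s a = r ∧ s (τ a) = r' ∧ s b = r' ∧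
    s (τ b) = r

/-- DS3 (medium).  DSC of `Spec2` without cycles of length 3, 4 only: a chord of the 7-cycle gives a
cycle of length 3 or 4 (the other side is not needed); otherwise the same proof. -/
def DS3_stmt : Prop := ∀ (V : Type) [DecidableEq V] (G : SimpleGraph V) (S : ZMod 7 → Finset V)
  (z : ZMod 7 → V) (κ : Equiv.Perm (ZMod 7)), NoTri G → NoC4 G →
  (∀ t, IsIndepDom G (S t)) → Cyc7 G z →
  (∀ t, z (κ t) ∈ S t ∧ z (κ t + 1) ∉ S t ∧
    S (t + 1) = insert (z (κ t + 1)) ((S t).erase (z (κ t)))) →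
  ∃ (R : Finset V) (z' : ZMod 7 → V), Cyc7 G z' ∧ (∀ k, z' k ∉ R) ∧
    (∀ k, ∀ r ∈ R, ¬ G.Adj r (z' k)) ∧
    ∀ t, S t = R ∪ {z' (5 * t), z' (5 * t + 2), z' (5 * t + 4)}

/-- CI3 (short).  Proof.  IAD gives the slides `s t → v t` of `S t`; BAL, CYM; the second alternative is
excluded by NOM; DS3. -/
def CI3_stmt : Prop := ∀ (V : Type) [DecidableEq V] (G : SimpleGraph V),
  NoTri G → NoC4 G → NoC4 (iGraph G) → ∀ S : ZMod 7 → {S : Finset V // IsISet G S},
  Cyc7 (iGraph G) S →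
  ∃ (R : Finset V) (z : ZMod 7 → V), Cyc7 G z ∧ (∀ k, z k ∉ R) ∧
    (∀ k, ∀ r ∈ R, ¬ G.Adj r (z k)) ∧
    ∀ t, (S t).1 = R ∪ {z (5 * t), z (5 * t + 2), z (5 * t + 4)}

/-- PP3 (medium).  Proof.  As PP in `Spec2`, with CI3 and the following new argument for `r ≠ z2`.  If
`r = z2`: `r'` is adjacent to `z2` and to no other member of `S 0 = R ∪ {z0, z2, z4}`, `r' ∉ S 0`, and `r'` is no
`z k` (`z1`, `z3` are adjacent to `z0`, `z4`; a chord gives a cycle of length 3 or 4).  `S 2 = R ∪ {z0, z3, z5}`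
dominates `r'`: not `R`, not `z0` (members of `S 0`), not `z3` (triangle with `z2`), so `r' ~ z5`.
`S 4 = R ∪ {z1, z3, z6}` dominates `r'`: not `R`, not `z1`, `z3` (triangle with `z2`), so `r' ~ z6`.  Triangle
`r' z5 z6`. -/
def PP3_stmt : Prop := ∀ (V : Type) [DecidableEq V] (G : SimpleGraph V),
  NoTri G → NoC4 G → NoC6 G → NoC4 (iGraph G) → P1 (iGraph G) → P2 G

/-- PX3 (short to medium).  As PX in `Spec2`, with CI3. -/
def PX3_stmt : Prop := ∀ (V : Type) [DecidableEq V] (G : SimpleGraph V),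
  NoTri G → NoC4 G → NoC4 (iGraph G) → P2 (iGraph G) → False

/-- DE3 (short).  As DE2 in `Spec2`. -/
def DE3_stmt : Prop := ∀ (V : Type) [DecidableEq V] (G : SimpleGraph V),
  NoTri G → NoC4 G → NoC6 G → Nonempty (iGraph G ≃g G) → ¬ Three G

/-- Final statement 3. -/
def FI3_stmt : Prop := ∀ (V : Type) [Fintype V] [DecidableEq V] (G : SimpleGraph V), G.Connected →
  (∀ (v : V) (p : G.Walk v v), p.IsCycle → p.length ≠ 3 ∧ p.length ≠ 4 ∧ p.length ≠ 6) →
  Nonempty (iGraph G ≃g G) →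
  Nonempty (G ≃g (⊤ : SimpleGraph (Fin 1))) ∨ Nonempty (G ≃g (⊤ : SimpleGraph (Fin 2))) ∨
    Nonempty (G ≃g SimpleGraph.cycleGraph 7) ∨
    ∃ k, 5 ≤ k ∧ k % 3 = 2 ∧ Nonempty (G ≃g SimpleGraph.cycleGraph k)

end Pool.Agent.helper91.SI
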