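import Pool.Agent.helper91.SI.Spec3

/-!
# Graphs isomorphic to their own i-graph: only cycles of length 3 and 4 excluded

Fourth part of the project (continues `Spec`, `Spec2`, `Spec3`): a graph without cycles of length 3 and 4
which is isomorphic to its i-graph has no cycle of length 6.
-/

set_option autoImplicit false

namespace Pool.Agent.helper91.SI

open Pool.Agent.helper20.IG (IsIndepDom IsISet iGraph)

/-- a closed walk of slides of length 6 through different i-sets -/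
def W6 {V : Type} [DecidableEq V] (G : SimpleGraph V) (S : ZMod 6 → Finset V)
    (s v : ZMod 6 → V) : Prop :=
  (∀ t, IsISet G (S t)) ∧ Function.Injective S ∧
    ∀ t, s t ∈ S t ∧ v t ∉ S t ∧ G.Adj (s t) (v t) ∧ S (t + 1) = insert (v t) ((S t).erase (s t))

/-- `x` is a cycle of length 6 -/
def Cyc6 {V : Type} (G : SimpleGraph V) (x : ZMod 6 → V) : Prop :=
  Function.Injective x ∧ ∀ k, G.Adj (x k) (x (k + 1))

/-- three paths `x a a' y`, `x b b' y`, `x c c' y` -/
def Th {V : Type} (G : SimpleGraph V) : Prop :=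
  ∃ x y a a' b b' c c' : V, [x, a, a', y, b', b].Nodup ∧ [x, a, a', y, c', c].Nodup ∧ b ≠ c ∧
    G.Adj x a ∧ G.Adj a a' ∧ G.Adj a' y ∧ G.Adj x b ∧ G.Adj b b' ∧ G.Adj b' y ∧
    G.Adj x c ∧ G.Adj c c' ∧ G.Adj c' y

/-- P6R (short).  Permutations of 6 elements without fixed points: cycle types (6), (4,2), (3,3), (2,2,2).
Proof.  `decide +kernel` (720 permutations), or as PRM in `Spec2`. -/
def P6R_stmt : Prop := ∀ τ : Equiv.Perm (ZMod 6), (∀ t, τ t ≠ t) →
  (∃ t, τ (τ (τ t)) = t) ∨ (∀ t, τ (τ (τ (τ t))) = t) ∨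
    ((τ ^ 6) 0 = 0 ∧ ∀ i, ∃ k : Fin 6, (τ ^ (k : ℕ)) 0 = i)

/-- B6L (short).  As BAL in `Spec2` (helper99/SI/BAL.lean), for 6 instead of 7. -/
def B6L_stmt : Prop := ∀ (V : Type) [DecidableEq V] (S : ZMod 6 → Finset V) (s v : ZMod 6 → V),
  (∀ t, s t ∈ S t) → (∀ t, v t ∉ S t) → (∀ t, S (t + 1) = insert (v t) ((S t).erase (s t))) →
  ∃ τ : Equiv.Perm (ZMod 6), ∀ t, v t = s (τ t)

/-- C6Y (medium).  Closed walks of total length 6: a cycle of length 6, or the moves are pairwise inverse.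
Proof.  `τ t ≠ t` (no loops).  P6R.  `τ³ t = t`: triangle.  `τ⁴ t = t` for all `t`: for given `t` let
`p0, p1, p2, p3` be `s t, s (τ t), s (τ² t), s (τ³ t)`, a closed walk of length 4; by NoC4 `p0 = p2` (then
`t' = τ t`: `s t' = p1`, `s (τ t') = p2 = p0`) or `p1 = p3` (then `t' = τ³ t`: `s t' = p3 = p1`, `s (τ t') = s t`).
Otherwise `p k = s (τ^k 0)`, `k = 0..5`, is a closed walk of length 6.  If the six vertices are different,
the first alternative with `z k = s (τ^k 0)` and `κ` the inverse of `k ↦ τ^k 0` (as CY7 in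
helper66/SI/CY7.lean).  If two coincide, then not at distance 1, 5 (loop), 3 (triangle), so
`p i = p (i+2)` for some `i` (mod 6; distance 4 is distance 2 from the other side).  Then the moves
`p i → p (i+1)` and `p (i+1) → p (i+2)` are inverse to each other, and `p (i+2), p (i+3), p (i+4), p (i+5)`
is a closed walk of length 4 (as `p (i+6) = p i = p (i+2)`), so its four moves are pairwise inverse as above. -/
def C6Y_stmt : Prop := ∀ (V : Type) (G : SimpleGraph V) (s : ZMod 6 → V)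
  (τ : Equiv.Perm (ZMod 6)), NoTri G → NoC4 G → (∀ t, G.Adj (s t) (s (τ t))) →
  (∃ (z : ZMod 6 → V) (κ : Equiv.Perm (ZMod 6)), Cyc6 G z ∧
    ∀ t, s t = z (κ t) ∧ s (τ t) = z (κ t + 1)) ∨
  ∀ t, ∃ t', s t' = s (τ t) ∧ s (τ t') = s t

/-- D6C (medium).  The first alternative is impossible.
Proof.  As DSC (helper63/SI/DSC.lean): `R = S 0 \ image z`; `S t \ image z = R` for all `t`, no `r ∈ R` is
adjacent to a `z k` (each `z k` is in some `S (t+1)`, with `R`); no chords (`z j ~ z (j+2)` triangle,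
`z j ~ z (j+3)` 4-cycle).  `T t = {k | z k ∈ S t}` contains no `k, k+1`, and for `k ∉ T t`, `k-1` or `k+1` is in
`T t`.  For two such sets `T, T'` and `k ∈ T`, `k+1 ∉ T`, `T' = insert (k+1) (T.erase k)` is impossible
(`decide +kernel` over the subsets of `ZMod 6`: the sets are `{j, j+3}` and `{j, j+2, j+4}`). -/
def D6C_stmt : Prop := ∀ (V : Type) [DecidableEq V] (G : SimpleGraph V) (S : ZMod 6 → Finset V)
  (z : ZMod 6 → V) (κ : Equiv.Perm (ZMod 6)), NoTri G → NoC4 G →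
  (∀ t, IsIndepDom G (S t)) → Cyc6 G z →
  (∀ t, z (κ t) ∈ S t ∧ z (κ t + 1) ∉ S t ∧
    S (t + 1) = insert (z (κ t + 1)) ((S t).erase (z (κ t)))) → False

/-- I2W (short to medium).  Inverse slides are not at distance 1, 2, 4, 5.
Proof.  (1) `s (t+1) ≠ v t`: as NB1 in `Spec3` (helper82/SI/NB1.lean): otherwise `v (t+1) = s t` by SAM and
`S (t+2) = S t`.  (2) As NM1 in `Spec3` (helper54/SI/NM1.lean): let `s (t+2) = v t`, `v (t+2) = s t`, and
`x → y` the slide at `t+1`.  `x ≠ v t` by (1).  `y ≠ s t` (otherwise `s t, v t ∈ S (t+2)` are adjacent).  So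
`x ∈ S t`, `y ∉ S t`, `S (t+3) = insert y ((S t).erase x)`, and `S t, S (t+1), S (t+2), S (t+3)` is a 4-cycle
of the i-graph. -/
def I2W_stmt : Prop := ∀ (V : Type) [DecidableEq V] (G : SimpleGraph V) (S : ZMod 6 → Finset V)
  (s v : ZMod 6 → V), NoTri G → NoC4 (iGraph G) → W6 G S s v →
  (∀ t, s (t + 1) ≠ v t) ∧ ∀ t, ¬ (s (t + 2) = v t ∧ v (t + 2) = s t)

/-- INV (short).  Opposite moves of a 6-cycle of the i-graph are inverse to each other.
Proof.  B6L gives `τ`; C6Y: the first alternative is impossible by D6C.  So for each `t` there is `t'` with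
`s t' = v t`, `v t' = s t`.  By I2W `t' ≠ t + 1` (`s (t+1) ≠ v t`), `t' ≠ t + 5` (`s (t'+1) ≠ v t'`),
`t' ≠ t + 2`, `t' ≠ t + 4` (`t = t' + 2`), `t' ≠ t` (adjacent vertices are different); so `t' = t + 3`. -/
def INV_stmt : Prop := ∀ (V : Type) [DecidableEq V] (G : SimpleGraph V) (S : ZMod 6 → Finset V)
  (s v : ZMod 6 → V), NoTri G → NoC4 G → NoC4 (iGraph G) → W6 G S s v →
  ∀ t, s (t + 3) = v t ∧ v (t + 3) = s t

/-- T6S (medium).  The six i-sets.
Proof.  Write `a, a'` for `s 0, v 0`, `b, b'` for `s 1, v 1`, `c, c'` for `s 2, v 2`.  By hypothesis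
`s 3 = a'`, `v 3 = a`, `s 4 = b'`, `v 4 = b`, `s 5 = c'`, `v 5 = c`.  `b ∈ S 1`, `b ≠ a'`, so `b ∈ S 0`, `b ≠ a`.
`c ∈ S 2`, `c ≠ b'`, so `c ∈ S 1`, `c ≠ b`; `c ≠ a'`, since otherwise `a' ∉ S 3`, but `s 3 = a' ∈ S 3`; so
`c ∈ S 0`, `c ≠ a`.  `R = S 0 \ {a, b, c}`.  The forms of `S 1, ..., S 5` follow.  `b' ∉ S 1`, `c' ∉ S 2`,
`b' ≠ a` (otherwise `a ∈ S 2`, `a ∈ S 3` as `c ≠ a`, but `v 3 = a ∉ S 3`), `c' ≠ a` (`v 3 = a ∉ S 3`), `c' ≠ b`
(otherwise `b ∈ S 3`, `b ∈ S 4` (`a' ≠ b`), but `v 4 = b ∉ S 4`). -/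
def T6S_stmt : Prop := ∀ (V : Type) [DecidableEq V] (G : SimpleGraph V) (S : ZMod 6 → Finset V)
  (s v : ZMod 6 → V), W6 G S s v → (∀ t, s (t + 1) ≠ v t) →
  (∀ t, s (t + 3) = v t ∧ v (t + 3) = s t) →
  ∃ R : Finset V, [s 0, v 0, s 1, v 1, s 2, v 2].Nodup ∧
    (∀ w ∈ [s 0, v 0, s 1, v 1, s 2, v 2], w ∉ R) ∧
    S 0 = R ∪ {s 0, s 1, s 2} ∧ S 1 = R ∪ {v 0, s 1, s 2} ∧ S 2 = R ∪ {v 0, v 1, s 2} ∧
    S 3 = R ∪ {v 0, v 1, v 2} ∧ S 4 = R ∪ {s 0, v 1, v 2} ∧ S 5 = R ∪ {s 0, s 1, v 2}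

/-- T6H (medium).  A 6-cycle of the i-graph gives three paths of length 3.
Proof.  INV, I2W, T6S; notation as there.  Two of the six vertices `a, ..., c'` which are not `a, a'`,
`b, b'` or `c, c'` are not adjacent (they lie in a common `S t`).  At `S 0` the slides `a → a'` (to `S 1`) and
`c → c'` (to `S 5`) are in conflict (CFL), and `a', c'` are not adjacent (`S 3`), so there is `y` adjacent to
`a` and `c` and to no other member of `S 0`.  `y` is none of the six vertices and not in `R` (`y ~ a`, `y ~ c`).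
`S 3 = R ∪ {a', b', c'}` dominates `y`: not by `R`; `a'`: triangle `a a' y`; `c'`: triangle `c c' y`; so `y ~ b'`.
At `S 3` the slides `a' → a` (to `S 4`) and `c' → c` (to `S 2`) are in conflict and `a, c` are not adjacent, so
there is `x` adjacent to `a'`, `c'` and to no other member of `S 3`.  `S 0` dominates `x`: not by `R`, `a`, `c`
(triangles), so `x ~ b`.  `x ≠ y` (otherwise triangle `a a' x`).  The paths are `x a' a y`, `x b b' y`,
`x c' c y`. -/
def T6H_stmt : Prop := ∀ (V : Type) [DecidableEq V] (G : SimpleGraph V) (S : ZMod 6 → Finset V)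
  (s v : ZMod 6 → V), NoTri G → NoC4 G → NoC4 (iGraph G) → W6 G S s v → Th G

/-- I6W (short).  A 6-cycle of the i-graph as a closed walk of slides (IAD, `choose`). -/
def I6W_stmt : Prop := ∀ (V : Type) [DecidableEq V] (G : SimpleGraph V)
  (X : ZMod 6 → {S : Finset V // IsISet G S}), Cyc6 (iGraph G) X →
  ∃ s v, W6 G (fun t => (X t).1) s v

/-- NTH (short to medium).  The i-graph does not contain three such paths.
Proof.  Let `x a a' y`, `x b b' y`, `x c c' y` be the paths in the i-graph.  The 6-cycle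
`x, a, a', y, b', b` (`t = 0, ..., 5`) with its slides (I6W) satisfies INV: `s 5 = v 2`, `v 5 = s 2`, so
`b = X 5` and `x = X 0 = insert (s 2) (b.erase (v 2))`, i.e. `b = insert (v 2) (x.erase (s 2))`, where
`y = insert (v 2) (a'.erase (s 2))`, so `{s 2} = a' \ y`, `{v 2} = y \ a'`.  The same for `c`.  So `b = c`. -/
def NTH_stmt : Prop := ∀ (V : Type) [DecidableEq V] (G : SimpleGraph V),
  NoTri G → NoC4 G → NoC4 (iGraph G) → ¬ Th (iGraph G)

/-- N6G (short).  Proof.  `NoC4 (iGraph G)` by the isomorphism.  A 6-cycle of `G` gives a 6-cycle of the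
i-graph by the isomorphism, so `Th G` (I6W, T6H), so `Th (iGraph G)` by the isomorphism, against NTH. -/
def N6G_stmt : Prop := ∀ (V : Type) [DecidableEq V] (G : SimpleGraph V),
  NoTri G → NoC4 G → Nonempty (iGraph G ≃g G) → NoC6 G

/-- Final statement 4. -/
def FI4_stmt : Prop := ∀ (V : Type) [Fintype V] [DecidableEq V] (G : SimpleGraph V), G.Connected →
  (∀ (v : V) (p : G.Walk v v), p.IsCycle → p.length ≠ 3 ∧ p.length ≠ 4) →
  Nonempty (iGraph G ≃g G) →
  Nonempty (G ≃g (⊤ : SimpleGraph (Fin 1))) ∨ Nonempty (G ≃g (⊤ : SimpleGraph (Fin 2))) ∨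
    Nonempty (G ≃g SimpleGraph.cycleGraph 7) ∨
    ∃ k, 5 ≤ k ∧ k % 3 = 2 ∧ Nonempty (G ≃g SimpleGraph.cycleGraph k)

end Pool.Agent.helper91.SI
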