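import Pool.Agent.helper91.SI.Spec4
import Pool.Agent.helper91.SI.CV3

/-!
# Graphs isomorphic to their own i-graph: the disconnected case

Fifth part of the project (continues `Spec`, ..., `Spec4`): a finite graph without cycles of length 3 and 4
which is isomorphic to its i-graph is connected.
-/

set_option autoImplicit false

namespace Pool.Agent.helper91.SI

open Pool.Agent.helper20.IG (IsIndepDom IsISet iGraph)

/-- `K` is a union of components -/
def Clo {V : Type} (G : SimpleGraph V) (K : Set V) : Prop := ∀ u v, G.Adj u v → (u ∈ K ↔ v ∈ K)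

/-- EXI (short).  A finite graph has an i-set.
Proof.  An independent set of maximal card is dominating; take an independent dominating set of
minimal card (`Finset.exists_min_image` over the filtered `univ`). -/
def EXI_stmt : Prop := ∀ (V : Type) [Fintype V] [DecidableEq V] (G : SimpleGraph V),
  ∃ S, IsISet G S

/-- MIX (short to medium).  Mixtures of i-sets.
Proof.  `M` and the opposite mixture `M'` (`Y` inside `K`, `X` outside `K`) are independent and dominating
(`Clo`), and the cards of `M` and `M'` have the same sum as the cards of `X` and `Y`, which are equal (both are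
minimal).  Both are at least the card of `X`, so both are equal to it. -/
def MIX_stmt : Prop := ∀ (V : Type) [DecidableEq V] (G : SimpleGraph V) (K : Set V)
  (X Y M : Finset V), Clo G K → IsISet G X → IsISet G Y →
  (∀ z, z ∈ M ↔ (z ∈ K ∧ z ∈ X) ∨ (z ∉ K ∧ z ∈ Y)) → IsISet G M

/-- ONE (short to medium).  All slides are in the same component.
Proof.  Let `t ∉ K`; `v ∈ K`, `w ∉ K` (`Clo`).  Let `M` be the mixture: `X` inside `K`, `Y` outside `K`.  `M` is an
i-set, `insert v (M.erase s)` is the mixture of `insert v (X.erase s)` and `Y`, `insert w (M.erase t)` that of `X`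
and `insert w (Y.erase t)` (MIX).  So `Slide G M s v` and `Slide G M t w`, and CFL gives a conflict: `v ~ w` or a
common neighbour of `s` and `t`, both against `Clo`. -/
def ONE_stmt : Prop := ∀ (V : Type) [DecidableEq V] (G : SimpleGraph V) (K : Set V)
  (X Y : Finset V) (s v t w : V), NoTri G → NoC4 (iGraph G) → Clo G K → Slide G X s v →
  Slide G Y t w → s ∈ K → t ∈ K

/-- EMB (medium).  The i-sets which agree with `X` outside `K` are the i-sets of `G[K]`.
Proof.  `T ↦ (T.map val) ∪ (X.filter (· ∉ K))`, inverse `Y ↦ Y ∩ K`.  If `T'` is independent dominating in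
`G[K]`, then `T' ∪ (X outside K)` is independent dominating in `G` (`Clo`), and if `Y` is so in `G`, `Y ∩ K` is so
in `G[K]`.  Cards: `|T'| + |X outside K|` and `|Y| = |Y ∩ K| + |X outside K|`, which gives the minimality in
both directions.  Adjacency: a slide `u → v` from `Y` to `Y'`, both in the class, has `u ∈ K` (otherwise
`u ∈ Y`, `u ∉ Y'` are not both equivalent to `u ∈ X`), so `v ∈ K`. -/
def EMB_stmt : Prop := ∀ (V : Type) [DecidableEq V] (G : SimpleGraph V) (K : Set V)
  (X : {S : Finset V // IsISet G S}), Clo G K →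
  Nonempty (iGraph (G.induce K) ≃g (iGraph G).induce {Y | ∀ z, z ∉ K → (z ∈ Y.1 ↔ z ∈ X.1)})

/-- CLS (short).  Connected i-sets agree outside the component of the slides.
Proof.  For adjacent `Y, Y'`: IAD gives a slide `t → w` with `Y' = insert w (Y.erase t)`; `t ∈ K` (ONE), `w ∈ K`
(`Clo`), so `Y` and `Y'` agree outside `K`.  Induction on a walk (`Reachable.elim`, `Walk` induction). -/
def CLS_stmt : Prop := ∀ (V : Type) [DecidableEq V] (G : SimpleGraph V) (K : Set V)
  (X : Finset V) (s v : V), NoTri G → NoC4 (iGraph G) → Clo G K → Slide G X s v → s ∈ K →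
  ∀ Y Y' : {S : Finset V // IsISet G S}, (iGraph G).Reachable Y Y' →
    ∀ z, z ∉ K → (z ∈ Y.1 ↔ z ∈ Y'.1)

/-- CPN (short to medium).  Number of i-sets of a path.
Proof.  `n % 3 = 0`: only one i-set (see the proof of PA0, helper57/SI/PA0.lean); `n % 3 = 2`, `5 ≤ n`: at
most `(n+4)/3` i-sets (see PA2, helper33/SI/PA2.lean), `n = 2`: at most 2; `n = 1, 2, 4`: `decide`, or the i-sets
are among explicit lists (see PA4, helper71/SI/PA4.lean). -/
def CPN_stmt : Prop := ∀ n : ℕ, 1 ≤ n → (n % 3 ≠ 1 ∨ n = 1 ∨ n = 4) →
  Nat.card {S // IsISet (SimpleGraph.pathGraph n) S} ≤ n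

/-- CCN (short).  Number of i-sets of a cycle.
Proof.  `n % 3 = 0`: the i-graph has no edge (see the proof of CA0, helper58/SI/CA0.lean or
helper27/SI/CA0.lean).  `n % 3 = 2`: CNV, an isomorphism preserves `Nat.card`.  `n = 7`: `CV3_C7`. -/
def CCN_stmt : Prop := ∀ n : ℕ, 5 ≤ n → (n % 3 ≠ 1 ∨ n = 7) → n ≠ 6 →
  (∃ X Y, (iGraph (SimpleGraph.cycleGraph n)).Adj X Y) →
  Nat.card {S // IsISet (SimpleGraph.cycleGraph n) S} ≤ n

/-- SZN (short to medium).  A component has at most as many i-sets as vertices.
Proof.  STA, STB: `H` is isomorphic to `pathGraph n` or `cycleGraph n` with `n = card W ≥ 1`.  TRF: the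
i-graphs are isomorphic; transport the hypotheses (`FIN_noC4`, `FIN_three` in helper91/SI/FIN.lean).  Path:
`n ≥ 7`, `n % 3 = 1` is impossible by PA1, otherwise CPN.  Cycle: `n ≠ 3, 4, 6` (SM2), `n ≥ 10`,
`n % 3 = 1` is impossible by CA1, otherwise CCN. -/
def SZN_stmt : Prop := ∀ (W : Type) [Fintype W] [DecidableEq W] (H : SimpleGraph W), H.Connected →
  NoTri H → NoC4 H → NoC6 H → ¬ Three H → NoC4 (iGraph H) → ¬ Three (iGraph H) →
  (∃ X Y, (iGraph H).Adj X Y) → Nat.card {S // IsISet H S} ≤ Nat.card W

/-- CNA (medium).  The component with the slides is isomorphic to its i-graph.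
Proof.  `NoC4 (iGraph G)`, `¬ Three (iGraph G)` by `e`.  `K = {z | G.Reachable s z}`, `Clo G K`, `H = G.induce K`
is connected.  EMB for `X`: the i-sets `X` and `insert v (X.erase s)` of the class are adjacent, so the i-graph
of `H` has an edge, no 4-cycle and no vertex with three neighbours.  SZN: it has at most `card K` vertices.
Let `Y0 = e.symm s` and `C = {Y | e Y ∈ K}`, i.e. the `Y` with `(iGraph G).Reachable Y0 Y` (transport of
`Reachable` by `e`); `C` has `card K` elements (`e` is bijective).  By CLS all `Y ∈ C` agree with `Y0` outside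
`K`, so `C` is contained in the class `D` of `Y0`, which has as many elements as `H` has i-sets (EMB), at most
`card K`.  So `C = D`.  The induced graph on `D` is isomorphic to the i-graph of `H` (EMB), the one on `C` by `e`
to `H`. -/
def CNA_stmt : Prop := ∀ (V : Type) [Fintype V] [DecidableEq V] (G : SimpleGraph V),
  NoTri G → NoC4 G → NoC6 G → ¬ Three G → ∀ (e : iGraph G ≃g G) (X : Finset V) (s v : V),
  Slide G X s v →
  Nonempty (iGraph (G.induce {z | G.Reachable s z}) ≃g G.induce {z | G.Reachable s z})

/-- CNB (medium).  There is no other component.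
Proof.  Let `K = {z | G.Reachable s z}`, `H = G.induce K` as in CNA; the i-graph of `H` is isomorphic to `H`
(CNA) and so connected.  Let `b ∉ K`, `L = {z | G.Reachable b z}` (disjoint from `K`), `Y1 = e.symm b`, and `D`
the class of `Y1` (the i-sets which agree with `Y1` outside `K`).  The induced graph on `D` is isomorphic to the
i-graph of `H` (EMB for `K`, `Y1`), so connected, so all `Y ∈ D` satisfy `(iGraph G).Reachable Y1 Y`; the
converse is CLS.  So `e` maps `D` onto `L`, and `G.induce L` is isomorphic to the i-graph of `H`, hence to `H`.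
By TRF the i-graph of `G.induce L` is isomorphic to that of `H`, which is isomorphic to `H` and has an edge
(`s ~ v`).  By EMB for `L`, `X` there are adjacent i-sets `Y, Y'` of `G` which agree with `X` outside `L`; the
slide `t → w` between them (IAD) has `t ∈ L` (otherwise `Y, Y'` would agree at `t`).  ONE: `t ∈ K`.
Contradiction. -/
def CNB_stmt : Prop := ∀ (V : Type) [Fintype V] [DecidableEq V] (G : SimpleGraph V),
  NoTri G → NoC4 G → NoC6 G → ¬ Three G → ∀ (e : iGraph G ≃g G) (X : Finset V) (s v : V),
  Slide G X s v → ∀ b, G.Reachable s b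

/-- CNN (short).  Proof.  EXI and the isomorphism: `V` is not empty.  If `G` has an edge, so has its
i-graph, IAD gives a slide, CNB.  If `G` has no edge, the only independent dominating set is `univ`, so the
i-graph has at most one vertex, and `G` too. -/
def CNN_stmt : Prop := ∀ (V : Type) [Fintype V] [DecidableEq V] (G : SimpleGraph V),
  NoTri G → NoC4 G → NoC6 G → ¬ Three G → Nonempty (iGraph G ≃g G) → G.Connected

/-- Final statement 5. -/
def FI5_stmt : Prop := ∀ (V : Type) [Fintype V] [DecidableEq V] (G : SimpleGraph V),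
  (∀ (v : V) (p : G.Walk v v), p.IsCycle → p.length ≠ 3 ∧ p.length ≠ 4) →
  Nonempty (iGraph G ≃g G) →
  Nonempty (G ≃g (⊤ : SimpleGraph (Fin 1))) ∨ Nonempty (G ≃g (⊤ : SimpleGraph (Fin 2))) ∨
    Nonempty (G ≃g SimpleGraph.cycleGraph 7) ∨
    ∃ k, 5 ≤ k ∧ k % 3 = 2 ∧ Nonempty (G ≃g SimpleGraph.cycleGraph k)

end Pool.Agent.helper91.SI
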